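import Pool.Agent.W399.WP.GStm

/-! Project WP (helper399), part GFIN: finiteness of the forms and of the values of the pieces. -/

set_option autoImplicit false

namespace Pool.Agent.W639.WP399

open Pool.Agent.W399.WP

theorem suffix_finite {α : Type*} (l : List α) : {s : List α | s <:+ l}.Finite := by
  have : {s : List α | s <:+ l} = {s | s ∈ l.tails} := by
    ext s
    simp [List.mem_tails]
  rw [this]
  exact List.finite_toSet l.tails

theorem forms_finite {A : Type} (g : ContextFreeGrammar (Option A)) : (Forms g).Finite := by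
  have : Forms g = {α | α <:+ st g} ∪ ⋃ r ∈ (g.rules : Set (ContextFreeRule (Option A) g.NT)),
      {α | α <:+ r.output} := by
    ext α
    simp [Forms]
  rw [this]
  exact (suffix_finite _).union (Set.Finite.biUnion (Finset.finite_toSet _) fun r _ =>
    suffix_finite _)

theorem gfin : S_GFIN := by
  intro M _ A φ g
  refine ⟨forms_finite g, ?_⟩
  have hsub : EG g φ ⊆ ⋃ β ∈ Forms g, ({m | LU g φ β ∧ ∃ w, Dv g β w ∧ m = pr φ w} ∪
      {m | RU g φ β ∧ ∃ w, Dv g β w ∧ m = pr φ w.reverse}) := by
    rintro m ⟨β, hβ, h⟩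
    exact Set.mem_biUnion hβ h
  refine Set.Finite.subset (Set.Finite.biUnion (forms_finite g) fun β _ => ?_) hsub
  refine Set.Finite.union (Set.Subsingleton.finite ?_) (Set.Subsingleton.finite ?_)
  · rintro _ ⟨⟨p, q, r, h⟩, w, hw, rfl⟩ _ ⟨-, w', hw', rfl⟩
    have h1 := (h w hw).trans (h w' hw').symm
    exact mul_left_cancel (mul_right_cancel h1)
  · rintro _ ⟨⟨p, q, r, h⟩, w, hw, rfl⟩ _ ⟨-, w', hw', rfl⟩
    have h1 := (h w hw).symm.trans (h w' hw')
    exact mul_left_cancel (mul_right_cancel h1)

end Pool.Agent.W639.WP399
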